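import Pool.Agent.H95.CM.Targets

/-!
# (NTP): norms are totally positive
-/

set_option autoImplicit false

open MeasureTheory Set Filter NumberField NumberField.InfinitePlace
open scoped Real nonZeroDivisors
open Pool.Agent.H65.CM4
open Pool.Agent.H95.CM hiding Nr
open Pool.Agent.H31.CN (IsLf)
open Pool.Agent.H61.FM (CC pv)

namespace Pool.Agent.H77.CM4

theorem ntp_pos (k K : Type) [Field k] [NumberField k] [IsTotallyReal k] [Field K] [NumberField K]
    [IsTotallyComplex K] [Algebra k K] [Algebra.IsQuadraticExtension k K] (x : K) (hx : x ≠ 0)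
    (v : Pl k) : 0 < rv v (Algebra.norm k x) := by
  classical
  obtain ⟨w, hw⟩ := comap_surjective (k := k) (K := K) v
  simp only at hw
  have hv : v.IsReal := IsTotallyReal.isReal v
  have hv' : (w.comap (algebraMap k K)).IsReal := by rw [hw]; exact hv
  have hemb : v.embedding = w.embedding.comp (algebraMap k K) := by
    have h := comap_embedding_of_isReal (algebraMap k K) hv'
    rw [hw] at h
    exact h
  set φ : K →+* ℂ := w.embedding with hφ
  have hcx : ¬ ComplexEmbedding.IsReal φ := by
    have h1 : w.IsComplex := IsTotallyComplex.isComplex w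
    rw [← not_isReal_iff_isComplex, isReal_iff] at h1
    exact h1
  have hcomp : φ.comp (algebraMap k K) = (ComplexEmbedding.conjugate φ).comp (algebraMap k K) := by
    have h1 : ComplexEmbedding.conjugate v.embedding = v.embedding := conjugate_embedding_eq_of_isReal hv
    rw [← hemb]
    rw [hemb] at h1
    rw [hemb]
    exact h1.symm
  obtain ⟨σ, hσ⟩ := NumberField.ComplexEmbedding.exists_comp_symm_eq_of_comp_eq (k := k) (K := K) φ _ hcomp
  have hσ1 : σ.symm ≠ AlgEquiv.refl := by
    intro h
    apply hcx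
    rw [ComplexEmbedding.isReal_iff, ← hσ, h]
    rfl
  have hcard : Fintype.card Gal(K/k) = 2 := by
    rw [← Nat.card_eq_fintype_card, IsGalois.card_aut_eq_finrank k K,
      Algebra.IsQuadraticExtension.finrank_eq_two k K]
  have huniv : (Finset.univ : Finset Gal(K/k)) = {AlgEquiv.refl, σ.symm} := by
    symm
    apply Finset.eq_of_subset_of_card_le (Finset.subset_univ _)
    rw [Finset.card_univ, hcard, Finset.card_pair hσ1.symm]
  have hnorm := Algebra.norm_eq_prod_automorphisms (K := k) (L := K) x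
  rw [huniv, Finset.prod_pair hσ1.symm] at hnorm
  have h2 : φ (σ.symm x) = (starRingEnd ℂ) (φ x) := RingHom.congr_fun hσ x
  have h3 : φ (algebraMap k K (Algebra.norm k x)) = ((‖φ x‖ ^ 2 : ℝ) : ℂ) := by
    rw [hnorm, map_mul, h2]
    have : φ ((AlgEquiv.refl : Gal(K/k)) x) = φ x := rfl
    rw [this, Complex.mul_conj, Complex.normSq_eq_norm_sq]
  have h4 : ((rv v (Algebra.norm k x) : ℝ) : ℂ) = φ (algebraMap k K (Algebra.norm k x)) := by
    unfold rv
    rw [embedding_of_isReal_apply, hemb]; rfl
  rw [h3] at h4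
  have h5 : rv v (Algebra.norm k x) = ‖φ x‖ ^ 2 := by exact_mod_cast h4
  rw [h5]
  have h6 : 0 < ‖φ x‖ := norm_pos_iff.2 ((map_ne_zero φ).2 hx)
  positivity

theorem ntp_prod (k : Type) [Field k] [NumberField k] [IsTotallyReal k] (x : k) :
    ∏ v : Pl k, |rv v x| = |((Algebra.norm ℚ x : ℚ) : ℝ)| := by
  have h := prod_eq_abs_norm (K := k) x
  rw [← Rat.cast_abs, ← h]
  apply Finset.prod_congr rfl
  intro v _
  rw [IsTotallyReal.mult_eq, pow_one]
  unfold rv
  rw [← Real.norm_eq_abs, norm_embedding_of_isReal]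

theorem pf_NTP : T_NTP := by
  intro k K _ _ _ _ _ _ _ _
  refine ⟨ntp_pos k K, ntp_prod k, ?_⟩
  intro x
  have h1 : Algebra.norm ℚ x = Algebra.norm ℚ (Algebra.norm k x) := (Algebra.norm_norm (R := ℚ) (S := k) (A := K)).symm
  rw [h1, ← ntp_prod]
  apply Finset.prod_congr rfl
  intro v _
  apply abs_of_nonneg
  rcases eq_or_ne x 0 with rfl | hx
  · have hz : Algebra.norm k (0 : K) = 0 := Algebra.norm_zero
    rw [hz, map_zero]
  · exact (ntp_pos k K x hx v).le

end Pool.Agent.H77.CM4
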