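import Pool.Agent.H65.CM4.Targets1

/-!
# (CAB): the fractions for a given dual point
-/

set_option autoImplicit false

open MeasureTheory Set Filter NumberField NumberField.InfinitePlace Pool.Agent.H65.CM4
open scoped Real

namespace Pool.Agent.H77.CM4

section

variable (k : Type) [Field k] [NumberField k] [IsTotallyReal k]

/-- one place, first coordinates -/
theorem cab_one {r η α β v1 v2 w1 w2 : ℝ} (hr : 0 < r) (hη : 0 < η)
    (h : ((α * v1 ^ 2 - β * w1 ^ 2) / r) ^ 2 + (α * (v1 * v2) - β * (w1 * w2)) ^ 2 +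
      (r * (α * v2 ^ 2 - β * w2 ^ 2)) ^ 2 ≤ (2 * η) ^ 2)
    (hv : 0 < v1 ^ 2 / r + r * v2 ^ 2) (hd : v1 * w2 - v2 * w1 ≠ 0) :
    |α| ≤ 4 * η * Real.sqrt (w1 ^ 2 / r + r * w2 ^ 2) /
      (|v1 * w2 - v2 * w1| * Real.sqrt (v1 ^ 2 / r + r * v2 ^ 2)) := by
  set D := v1 * w2 - v2 * w1 with hD
  set N := v1 ^ 2 / r + r * v2 ^ 2 with hN
  set M := w1 ^ 2 / r + r * w2 ^ 2 with hM
  have hM0 : 0 ≤ M := by rw [hM]; positivity
  have hN0 : 0 ≤ N := hv.le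
  -- the bilinear form
  have key : (α * D * N) ^ 2 ≤ 2 * (2 * η) ^ 2 * (M * N) := by
    have e1 : α * D * N = ((α * v1 ^ 2 - β * w1 ^ 2) / r) * (r * (w2 * (v1 / r))) +
        (α * (v1 * v2) - β * (w1 * w2)) * (w2 * (r * v2) - w1 * (v1 / r)) +
        (r * (α * v2 ^ 2 - β * w2 ^ 2)) * (-(w1 * (r * v2)) / r) := by
      rw [hD, hN]; field_simp; ring
    have e2 : (r * (w2 * (v1 / r))) ^ 2 + (w2 * (r * v2) - w1 * (v1 / r)) ^ 2 +
        (-(w1 * (r * v2)) / r) ^ 2 ≤ 2 * (M * N) := by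
      have e3 : M * N = (w1 * v1 / r) ^ 2 + (w1 * v2) ^ 2 + (w2 * v1) ^ 2 + (r * w2 * v2) ^ 2 := by
        rw [hM, hN]; field_simp; ring
      have e4 : (r * (w2 * (v1 / r))) ^ 2 = (w2 * v1) ^ 2 := by field_simp
      have e5 : (-(w1 * (r * v2)) / r) ^ 2 = (w1 * v2) ^ 2 := by field_simp
      have e6 : w2 * (r * v2) - w1 * (v1 / r) = r * w2 * v2 - w1 * v1 / r := by ring
      rw [e3, e4, e5, e6]
      nlinarith [sq_nonneg (r * w2 * v2 + w1 * v1 / r), sq_nonneg (w2 * v1), sq_nonneg (w1 * v2)]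
    rw [e1]
    have cs : ∀ a b c x y z : ℝ, (a * x + b * y + c * z) ^ 2 ≤
        (a ^ 2 + b ^ 2 + c ^ 2) * (x ^ 2 + y ^ 2 + z ^ 2) := by
      intro a b c x y z
      nlinarith [sq_nonneg (a * y - b * x), sq_nonneg (a * z - c * x), sq_nonneg (b * z - c * y)]
    refine (cs _ _ _ _ _ _).trans ?_
    have h2 : 0 ≤ (r * (w2 * (v1 / r))) ^ 2 + (w2 * (r * v2) - w1 * (v1 / r)) ^ 2 +
        (-(w1 * (r * v2)) / r) ^ 2 := by positivity
    calc _ ≤ (2 * η) ^ 2 * (2 * (M * N)) := by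
          apply mul_le_mul h e2 h2 (by positivity)
      _ = _ := by ring
  have hDp : 0 < |D| := abs_pos.2 hd
  have hsN : 0 < Real.sqrt N := Real.sqrt_pos.2 hv
  rw [le_div_iff₀ (by positivity)]
  -- |α| |D| sqrt N ≤ 4 η sqrt M
  have h3 : (|α| * (|D| * Real.sqrt N)) ^ 2 ≤ (4 * η * Real.sqrt M) ^ 2 := by
    have e1 : (|α| * (|D| * Real.sqrt N)) ^ 2 = α ^ 2 * D ^ 2 * N := by
      rw [mul_pow, mul_pow, sq_abs, sq_abs, Real.sq_sqrt hN0]; ring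
    have e2 : (4 * η * Real.sqrt M) ^ 2 = 16 * η ^ 2 * M := by
      rw [mul_pow, mul_pow, Real.sq_sqrt hM0]; ring
    rw [e1, e2]
    have h4 : (α ^ 2 * D ^ 2 * N) * N ≤ (8 * η ^ 2 * M) * N := by
      calc (α ^ 2 * D ^ 2 * N) * N = (α * D * N) ^ 2 := by ring
        _ ≤ _ := key
        _ = _ := by ring
    have h5 := le_of_mul_le_mul_right h4 hv
    have h6 : 0 ≤ η ^ 2 * M := by positivity
    linarith
  exact abs_le_of_sq_le_sq' h3 (by positivity) |>.2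

/-- one place, second coordinates -/
theorem cab_two {r η β w1 w2 : ℝ} (hr : 0 < r) (hη : 0 < η)
    (h : ((β * w1 ^ 2) / r) ^ 2 + (β * (w1 * w2)) ^ 2 + (r * (β * w2 ^ 2)) ^ 2 ≤ (2 * η) ^ 2)
    (hw : 0 < w1 ^ 2 / r + r * w2 ^ 2) :
    |β| ≤ 4 * η / (w1 ^ 2 / r + r * w2 ^ 2) := by
  set M := w1 ^ 2 / r + r * w2 ^ 2 with hM
  rw [le_div_iff₀ hw]
  have h3 : (|β| * M) ^ 2 ≤ (4 * η) ^ 2 := by
    have e1 : (|β| * M) ^ 2 = β ^ 2 * M ^ 2 := by rw [mul_pow, sq_abs]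
    rw [e1]
    have e2 : ((β * w1 ^ 2) / r) ^ 2 + (β * (w1 * w2)) ^ 2 + (r * (β * w2 ^ 2)) ^ 2 =
        β ^ 2 * ((w1 ^ 2 / r) ^ 2 + (w1 ^ 2 / r) * (r * w2 ^ 2) + (r * w2 ^ 2) ^ 2) := by
      field_simp
    have e3 : 3 / 4 * M ^ 2 ≤
        (w1 ^ 2 / r) ^ 2 + (w1 ^ 2 / r) * (r * w2 ^ 2) + (r * w2 ^ 2) ^ 2 := by
      rw [hM]; nlinarith [sq_nonneg (w1 ^ 2 / r - r * w2 ^ 2)]
    have h4 : β ^ 2 * (3 / 4 * M ^ 2) ≤ (2 * η) ^ 2 := by
      refine (mul_le_mul_of_nonneg_left e3 (sq_nonneg β)).trans ?_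
      rw [← e2]; exact h
    nlinarith [sq_nonneg η]
  exact abs_le_of_sq_le_sq' h3 (by positivity) |>.2

/-- the difference of two short forms is short -/
theorem dz1_sub {r η : ℝ} (E E' : ℝ × ℝ × ℝ) (h : dz1 r E ≤ η ^ 2) (h' : dz1 r E' ≤ η ^ 2) :
    dz1 r (E - E') ≤ (2 * η) ^ 2 := by
  have e : dz1 r (E - E') + dz1 r (E + E') = 2 * dz1 r E + 2 * dz1 r E' := by
    simp only [dz1, Prod.fst_sub, Prod.snd_sub, Prod.fst_add, Prod.snd_add]; ring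
  have h0 : 0 ≤ dz1 r (E + E') := by unfold dz1; positivity
  nlinarith

omit [IsTotallyReal k] in
theorem dz1_le_dz {r : ℝ} (E : RF k) (p : Pl k) : dz1 r (E p) ≤ dz r E := by
  unfold dz
  exact Finset.single_le_sum (f := fun v => dz1 r (E v)) (fun v _ => by unfold dz1; positivity)
    (Finset.mem_univ p)

theorem pf_CAB (hEMB : T_EMB k) (hBXC : T_BXC k) (hNRD : T_NRD k) : T_CAB k := by
  classical
  obtain ⟨hcard, hdg, -, -, -, -, hNr0, -, -, -, -, hden⟩ := hEMB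
  obtain ⟨C1, hC1, hbx⟩ := hBXC
  have hC0 : (0 : ℝ) ≤ C1 := by linarith
  refine ⟨C1 ^ 2 * 4 ^ dg k, by positivity, ?_⟩
  intro r η A B v w ν F hr hη hA hB hdet hF
  have hv0 : v ≠ 0 := by
    rintro rfl; apply hdet; simp [det]
  have hw0 : w ≠ 0 := by
    rintro rfl; apply hdet; simp [det]
  obtain ⟨hnv, hnv'⟩ := (hNRD r v w hr).2.1 hv0
  obtain ⟨hnw, hnw'⟩ := (hNRD r w v hr).2.1 hw0
  have hdk : ((det v w : 𝓞 k) : k) ≠ 0 := by
    intro h; exact hdet (by exact_mod_cast h)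
  have hdp : ∀ p : Pl k, rv p ((det v w : 𝓞 k) : k) ≠ 0 := fun p =>
    (map_ne_zero (rv p)).2 hdk
  have hdpe : ∀ p : Pl k, rv p ((det v w : 𝓞 k) : k) =
      rv p (v.1 : k) * rv p (w.2 : k) - rv p (v.2 : k) * rv p (w.1 : k) := by
    intro p
    have : ((det v w : 𝓞 k) : k) = (v.1 : k) * (w.2 : k) - (v.2 : k) * (w.1 : k) := rfl
    rw [this, map_sub, map_mul, map_mul]
  have hNd : 0 < Nr ((det v w : 𝓞 k) : k) :=
    lt_of_le_of_ne (hNr0 _).1 (fun h => hdk ((hNr0 _).2.1 h.symm))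
  -- differences
  have hdiff : ∀ x ∈ F, ∀ y ∈ F, ∀ p : Pl k,
      dz1 r ((ν + sq2 x.1 v - sq2 x.2 w) p - (ν + sq2 y.1 v - sq2 y.2 w) p) ≤ (2 * η) ^ 2 := by
    intro x hx y hy p
    exact dz1_sub _ _ ((dz1_le_dz k _ p).trans (hF x hx).2.2) ((dz1_le_dz k _ p).trans (hF y hy).2.2)
  have hNrd : ∀ (x y : k) (Y : ℝ), 1 ≤ Y → nm (den x) ≤ Y → nm (den y) ≤ Y → x ≠ y →
      1 / Y ^ 2 ≤ Nr (x - y) := by
    intro x y Y hY hx hy hxy
    obtain ⟨-, h2, h3⟩ := hden x y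
    have h4 := (hden (x - y) 0).2.2 (sub_ne_zero.2 hxy)
    have hn0 : ∀ I : Ideal (𝓞 k), 0 ≤ nm I := fun I => by unfold nm; positivity
    have h5 : nm (den (x - y)) ≤ Y ^ 2 := by
      calc _ ≤ nm (den x) * nm (den y) := h2
        _ ≤ Y * Y := mul_le_mul hx hy (hn0 _) (by linarith)
        _ = Y ^ 2 := by ring
    rw [div_le_iff₀ (by positivity)]
    calc (1 : ℝ) ≤ Nr (x - y) * nm (den (x - y)) := h4
      _ ≤ _ := mul_le_mul_of_nonneg_left h5 (hNr0 _).1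
  -- the sizes
  set g : Pl k → ℝ := fun p => 4 * η * Real.sqrt (nr r p w) /
    (|rv p ((det v w : 𝓞 k) : k)| * Real.sqrt (nr r p v)) with hg
  set g' : Pl k → ℝ := fun p => 4 * η / nr r p w with hg'
  have hgp : ∏ p : Pl k, g p = 4 ^ dg k * η ^ dg k * Real.sqrt (nn r w) /
      (Nr ((det v w : 𝓞 k) : k) * Real.sqrt (nn r v)) := by
    have ec : ∏ _p : Pl k, (4 * η) = 4 ^ dg k * η ^ dg k := by
      rw [Finset.prod_const, Finset.card_univ, hcard, mul_pow]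
    rw [hg, Finset.prod_div_distrib]
    rw [Finset.prod_mul_distrib (f := fun _ : Pl k => 4 * η), ec, Finset.prod_mul_distrib]
    have e : ∀ u : V2 k, (∀ p, 0 < nr r p u) →
        Real.sqrt (nn r u) = ∏ p : Pl k, Real.sqrt (nr r p u) := by
      intro u hu
      unfold nn
      rw [Real.sqrt_prod]
      intro i _; exact (hu i).le
    rw [← e v hnv', ← e w hnw']
    rfl
  have hgp' : ∏ p : Pl k, g' p = 4 ^ dg k * η ^ dg k / nn r w := by
    rw [hg', Finset.prod_div_distrib, Finset.prod_const, Finset.card_univ, hcard, mul_pow]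
    rfl
  have hg0 : ∀ p, 0 ≤ g p := by
    intro p
    have := hnv' p
    rw [hg]; positivity
  have hg0' : ∀ p, 0 ≤ g' p := by
    intro p
    have := hnw' p
    rw [hg']; positivity
  -- first coordinates
  have h1 : ((F.image Prod.fst).card : ℝ) ≤ C1 * (1 + (∏ p : Pl k, g p) / (1 / A ^ 2)) := by
    apply hbx (1 / A ^ 2) g (F.image Prod.fst) (by positivity) hg0
    intro a ha a' ha' haa
    obtain ⟨x, hx, rfl⟩ := Finset.mem_image.1 ha
    obtain ⟨y, hy, rfl⟩ := Finset.mem_image.1 ha'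
    refine ⟨hNrd _ _ A hA (hF x hx).1 (hF y hy).1 haa, ?_⟩
    intro p
    have h := hdiff x hx y hy p
    have hd := hdp p
    rw [hg]
    simp only
    rw [hdpe] at hd ⊢
    unfold nr
    apply cab_one (β := rv p (x.2 - y.2)) hr hη _ _ hd
    · refine le_trans (le_of_eq ?_) h
      simp only [dz1, sq2, Pi.add_apply, Pi.sub_apply, Prod.fst_sub, Prod.snd_sub, Prod.fst_add,
        Prod.snd_add, map_sub]
      ring
    · exact hnv' p
  -- fibres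
  have h2 : ∀ a ∈ F.image Prod.fst, ((F.filter (fun x => x.1 = a)).card : ℝ) ≤
      C1 * (1 + (∏ p : Pl k, g' p) / (1 / B ^ 2)) := by
    intro a _
    have hinj : Set.InjOn (Prod.snd : k × k → k) (F.filter (fun x => x.1 = a)) := by
      intro x hx y hy hxy
      have hx' := (Finset.mem_filter.1 (Finset.mem_coe.1 hx)).2
      have hy' := (Finset.mem_filter.1 (Finset.mem_coe.1 hy)).2
      exact Prod.ext (hx'.trans hy'.symm) hxy
    rw [← Finset.card_image_of_injOn hinj]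
    apply hbx (1 / B ^ 2) g' _ (by positivity) hg0'
    intro b hb b' hb' hbb
    obtain ⟨x, hx, rfl⟩ := Finset.mem_image.1 hb
    obtain ⟨y, hy, rfl⟩ := Finset.mem_image.1 hb'
    obtain ⟨hx, hxa⟩ := Finset.mem_filter.1 hx
    obtain ⟨hy, hya⟩ := Finset.mem_filter.1 hy
    refine ⟨hNrd _ _ B hB (hF x hx).2.1 (hF y hy).2.1 hbb, ?_⟩
    intro p
    have h := hdiff x hx y hy p
    rw [hg']
    simp only
    unfold nr
    apply cab_two hr hη _ (hnw' p)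
    refine le_trans (le_of_eq ?_) h
    simp only [dz1, sq2, Pi.add_apply, Pi.sub_apply, Prod.fst_sub, Prod.snd_sub, Prod.fst_add,
      Prod.snd_add, map_sub, hxa, hya]
    ring
  -- conclusion
  have h3 : (F.card : ℝ) ≤ (C1 * (1 + (∏ p : Pl k, g p) / (1 / A ^ 2))) *
      (C1 * (1 + (∏ p : Pl k, g' p) / (1 / B ^ 2))) := by
    have h4 : (F.card : ℝ) = ∑ a ∈ F.image Prod.fst, ((F.filter (fun x => x.1 = a)).card : ℝ) := by
      rw [Finset.card_eq_sum_card_image Prod.fst F]; push_cast; rfl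
    rw [h4]
    refine (Finset.sum_le_card_nsmul _ _ _ h2).trans ?_
    rw [nsmul_eq_mul]
    apply mul_le_mul_of_nonneg_right h1
    have : 0 ≤ ∏ p : Pl k, g' p := Finset.prod_nonneg (fun p _ => hg0' p)
    positivity
  refine h3.trans ?_
  rw [hgp, hgp']
  have hS : 0 ≤ Real.sqrt (nn r w) / (Nr ((det v w : 𝓞 k) : k) * Real.sqrt (nn r v)) := by positivity
  set S := Real.sqrt (nn r w) / (Nr ((det v w : 𝓞 k) : k) * Real.sqrt (nn r v)) with hSd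
  have e1 : C1 ^ 2 * 4 ^ dg k * η ^ dg k * A ^ 2 * Real.sqrt (nn r w) /
      (Nr ((det v w : 𝓞 k) : k) * Real.sqrt (nn r v)) =
      C1 ^ 2 * 4 ^ dg k * (η ^ dg k * A ^ 2 * S) := by rw [hSd]; ring
  have e2 : (4 ^ dg k * η ^ dg k * Real.sqrt (nn r w) /
      (Nr ((det v w : 𝓞 k) : k) * Real.sqrt (nn r v))) / (1 / A ^ 2) =
      4 ^ dg k * (η ^ dg k * A ^ 2 * S) := by
    rw [hSd, div_div_eq_mul_div, div_one]; ring
  have e3 : (4 ^ dg k * η ^ dg k / nn r w) / (1 / B ^ 2) = 4 ^ dg k * (η ^ dg k * B ^ 2 / nn r w) := by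
    rw [div_div_eq_mul_div, div_one]; ring
  have e4 : C1 ^ 2 * 4 ^ dg k * η ^ dg k * B ^ 2 / nn r w =
      C1 ^ 2 * 4 ^ dg k * (η ^ dg k * B ^ 2 / nn r w) := by ring
  rw [e1, e2, e3, e4]
  have hq : 0 ≤ η ^ dg k * A ^ 2 * S := by positivity
  have hz : 0 ≤ η ^ dg k * B ^ 2 / nn r w := by positivity
  set q := η ^ dg k * A ^ 2 * S
  set z := η ^ dg k * B ^ 2 / nn r w
  have h4n : (1 : ℝ) ≤ 4 ^ dg k := one_le_pow₀ (by norm_num)
  have hC2 : (1 : ℝ) ≤ C1 ^ 2 := one_le_pow₀ hC1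
  calc C1 * (1 + 4 ^ dg k * q) * (C1 * (1 + 4 ^ dg k * z)) =
        (C1 ^ 2 * 1 + C1 ^ 2 * 4 ^ dg k * q) * (1 + 1 * (4 ^ dg k * z)) := by ring
    _ ≤ (C1 ^ 2 * 4 ^ dg k + C1 ^ 2 * 4 ^ dg k * q) * (1 + C1 ^ 2 * (4 ^ dg k * z)) := by
        gcongr
    _ = _ := by ring

end

end Pool.Agent.H77.CM4
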