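import Pool.Agent.H65.CM4.Targets1

/-!
# (NW): the number of lines
-/

set_option autoImplicit false

open MeasureTheory Set Filter NumberField NumberField.InfinitePlace Pool.Agent.H65.CM4
open scoped Real

namespace Pool.Agent.H77.CM4

section

variable (k : Type) [Field k] [NumberField k] [IsTotallyReal k]

omit [NumberField k] in
theorem nr_smul (r : ℝ) (p : Pl k) (a : 𝓞 k) (w : V2 k) :
    nr r p (a • w) = rv p (a : k) ^ 2 * nr r p w := by
  have e1 : (((a • w : V2 k).1 : 𝓞 k) : k) = (a : k) * (w.1 : k) := rfl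
  have e2 : (((a • w : V2 k).2 : 𝓞 k) : k) = (a : k) * (w.2 : k) := rfl
  unfold nr
  rw [e1, e2, map_mul, map_mul]
  ring

theorem pf_NW (hEMB : T_EMB k) (hBAL : T_BAL k) (hBXC : T_BXC k) (hNRD : T_NRD k) : T_NW k := by
  classical
  obtain ⟨hcard, hdg, -, -, -, -, hNr0, -, -, hNr1, -, -⟩ := hEMB
  obtain ⟨C0, hC0, hbal⟩ := hBAL
  obtain ⟨C1, hC1, hbx⟩ := hBXC
  set n := dg k with hn
  have hc : (1 : ℝ) ≤ (2 * C0) ^ n := one_le_pow₀ (by linarith)
  refine ⟨C1 ^ 2 * (4 * ((2 * C0) ^ n) ^ 2), ?_, ?_⟩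
  · have h1 : (1 : ℝ) ≤ C1 ^ 2 := one_le_pow₀ hC1
    have h2 : (1 : ℝ) ≤ ((2 * C0) ^ n) ^ 2 := one_le_pow₀ hc
    nlinarith
  intro R r X F hr hX hF
  have hr0 : (0 : ℝ) < r := by linarith
  have hlow : ∀ w ∈ F, r ^ n ≤ nn r w := by
    intro w hw
    obtain ⟨-, hw2, -⟩ := hF w hw
    have hw2' : 1 ≤ Nr (w.2 : k) := hNr1 _ hw2
    have h1 : (∏ _p : Pl k, r) * (∏ p : Pl k, |rv p (w.2 : k)| ^ 2) ≤ nn r w := by
      rw [← Finset.prod_mul_distrib]
      unfold nn
      apply Finset.prod_le_prod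
      · intro i _; positivity
      · intro i _
        unfold nr
        rw [sq_abs]
        have : 0 ≤ rv i (w.1 : k) ^ 2 / r := by positivity
        linarith
    rw [Finset.prod_const, Finset.card_univ, hcard, Finset.prod_pow] at h1
    refine le_trans ?_ h1
    have h2 : (1 : ℝ) ≤ (∏ p : Pl k, |rv p (w.2 : k)|) ^ 2 := one_le_pow₀ hw2'
    have h3 : (0 : ℝ) < r ^ n := by positivity
    nlinarith
  refine ⟨?_, hlow⟩
  rcases F.eq_empty_or_nonempty with rfl | ⟨w0, hw0⟩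
  · simp only [Finset.card_empty, Nat.cast_zero]
    positivity
  have hrX : r ^ n ≤ X := (hlow w0 hw0).trans (hF w0 hw0).2.2
  have h1r : (1 : ℝ) ≤ r ^ n := one_le_pow₀ hr
  have hX1 : 1 ≤ X := h1r.trans hrX
  -- the root
  set T : ℝ := X ^ (1 / (n : ℝ)) with hT
  have hn0 : n ≠ 0 := hdg.ne'
  have hT0 : 0 ≤ T := Real.rpow_nonneg hX _
  have hTn : T ^ n = X := by
    rw [hT, one_div, Real.rpow_inv_natCast_pow hX hn0]
  -- balancing
  have hu : ∀ w : V2 k, ∃ u : (𝓞 k)ˣ, w ∈ F → ∀ p : Pl k,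
      nr r p ((u : 𝓞 k) • w) ≤ C0 ^ 2 * T := by
    intro w
    by_cases hw : w ∈ F
    · obtain ⟨hwW, hw2, hwX⟩ := hF w hw
      have hwne : w ≠ 0 := R.ne w hwW
      obtain ⟨hnn, hnr⟩ := (hNRD r w w hr0).2.1 hwne
      obtain ⟨u, hu⟩ := hbal (fun p => Real.sqrt (nr r p w)) (fun p => Real.sqrt_pos.2 (hnr p))
      refine ⟨u, fun _ p => ?_⟩
      have h1 := (hu p).2
      set P := ∏ v' : Pl k, Real.sqrt (nr r v' w) with hP
      have hP0 : 0 ≤ P := Finset.prod_nonneg (fun i _ => Real.sqrt_nonneg _)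
      have hP2 : P ^ 2 = nn r w := by
        rw [hP, ← Finset.prod_pow]
        unfold nn
        apply Finset.prod_congr rfl
        intro i _
        exact Real.sq_sqrt (hnr i).le
      set a := P ^ (1 / (n : ℝ)) with ha
      have ha0 : 0 ≤ a := Real.rpow_nonneg hP0 _
      have han : a ^ n = P := by rw [ha, one_div, Real.rpow_inv_natCast_pow hP0 hn0]
      have haT : a ^ 2 ≤ T := by
        have h2 : (a ^ 2) ^ n ≤ T ^ n := by
          rw [hTn, ← pow_mul, mul_comm 2 n, pow_mul, han, hP2]; exact hwX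
        exact (pow_le_pow_iff_left₀ (by positivity) hT0 hn0).1 h2
      rw [nr_smul]
      have h3 : rv p ((u : 𝓞 k) : k) ^ 2 * nr r p w =
          (|rv p ((u : 𝓞 k) : k)| * Real.sqrt (nr r p w)) ^ 2 := by
        rw [mul_pow, sq_abs, Real.sq_sqrt (hnr p).le]
      rw [h3]
      calc (|rv p ((u : 𝓞 k) : k)| * Real.sqrt (nr r p w)) ^ 2 ≤ (C0 * a) ^ 2 :=
            pow_le_pow_left₀ (by positivity) h1 2
        _ = C0 ^ 2 * a ^ 2 := by ring
        _ ≤ C0 ^ 2 * T := by gcongr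
    · exact ⟨1, fun h => absurd h hw⟩
  choose U hU using hu
  set Φ : V2 k → V2 k := fun w => ((U w : 𝓞 k)) • w with hΦ
  have hinj : Set.InjOn Φ F := by
    intro w hw w' hw' h
    have hw := Finset.mem_coe.1 hw
    have hw' := Finset.mem_coe.1 hw'
    have hwne : w ≠ 0 := R.ne w (hF w hw).1
    have hd : det w w' = 0 := by
      have h1 : (U w : 𝓞 k) * w.1 = (U w' : 𝓞 k) * w'.1 := congrArg Prod.fst h
      have h2 : (U w : 𝓞 k) * w.2 = (U w' : 𝓞 k) * w'.2 := congrArg Prod.snd h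
      have h3 : (U w : 𝓞 k) * (U w' : 𝓞 k) * det w w' = 0 := by
        unfold det
        calc (U w : 𝓞 k) * (U w' : 𝓞 k) * (w.1 * w'.2 - w.2 * w'.1) =
              ((U w : 𝓞 k) * w.1) * ((U w' : 𝓞 k) * w'.2) -
              ((U w : 𝓞 k) * w.2) * ((U w' : 𝓞 k) * w'.1) := by ring
          _ = 0 := by rw [h1, h2]; ring
      have h4 : (U w : 𝓞 k) * (U w' : 𝓞 k) ≠ 0 := (mul_ne_zero (U w).ne_zero (U w').ne_zero)
      exact (mul_eq_zero.1 h3).resolve_left h4
    obtain ⟨z, -, hz⟩ := R.uniq w hwne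
    have e1 := hz w ⟨(hF w hw).1, by simp only [det]; ring⟩
    have e2 := hz w' ⟨(hF w' hw').1, hd⟩
    rw [e1, e2]
  have hsz1 : ∀ w ∈ F, ∀ p : Pl k, |rv p ((Φ w).1 : k)| ≤ C0 * Real.sqrt (T * r) := by
    intro w hw p
    have h := hU w hw p
    unfold nr at h
    have h1 : rv p (((U w : 𝓞 k) • w).1 : k) ^ 2 / r ≤ C0 ^ 2 * T := by
      have : 0 ≤ r * rv p (((U w : 𝓞 k) • w).2 : k) ^ 2 := by positivity
      linarith
    rw [div_le_iff₀ hr0] at h1
    apply abs_le_of_sq_le_sq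
    · rw [mul_pow, Real.sq_sqrt (by positivity)]
      calc _ ≤ C0 ^ 2 * T * r := h1
        _ = _ := by ring
    · positivity
  have hsz2 : ∀ w ∈ F, ∀ p : Pl k, |rv p ((Φ w).2 : k)| ≤ C0 * Real.sqrt (T / r) := by
    intro w hw p
    have h := hU w hw p
    unfold nr at h
    have h1 : r * rv p (((U w : 𝓞 k) • w).2 : k) ^ 2 ≤ C0 ^ 2 * T := by
      have : 0 ≤ rv p (((U w : 𝓞 k) • w).1 : k) ^ 2 / r := by positivity
      linarith
    apply abs_le_of_sq_le_sq
    · rw [mul_pow, Real.sq_sqrt (by positivity), mul_div_assoc', le_div_iff₀ hr0]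
      calc _ = r * rv p (((U w : 𝓞 k) • w).2 : k) ^ 2 := by rw [mul_comm]
        _ ≤ _ := h1
    · positivity
  -- counting coordinates
  have count : ∀ (f : V2 k → 𝓞 k) (S : ℝ), 0 ≤ S →
      (∀ w ∈ F, ∀ p : Pl k, |rv p ((f w : 𝓞 k) : k)| ≤ C0 * S) →
      ((F.image f).card : ℝ) ≤ C1 * (1 + (2 * C0) ^ n * S ^ n) := by
    intro f S hS hfS
    have hci : Function.Injective (fun x : 𝓞 k => (x : k)) := RingOfIntegers.coe_injective
    rw [← Finset.card_image_of_injective (F.image f) hci]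
    have := hbx 1 (fun _ => 2 * C0 * S) ((F.image f).image (fun x : 𝓞 k => (x : k))) one_pos
      (fun _ => by positivity) ?_
    · rw [Finset.prod_const, Finset.card_univ, hcard, div_one, mul_pow] at this
      exact this
    · intro x hx y hy hxy
      obtain ⟨x', hx', rfl⟩ := Finset.mem_image.1 hx
      obtain ⟨y', hy', rfl⟩ := Finset.mem_image.1 hy
      obtain ⟨a, ha, rfl⟩ := Finset.mem_image.1 hx'
      obtain ⟨b, hb, rfl⟩ := Finset.mem_image.1 hy'
      have hne : f a - f b ≠ 0 := by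
        intro h; apply hxy
        have := sub_eq_zero.1 h
        simp only [this]
      have e : ((f a : 𝓞 k) : k) - ((f b : 𝓞 k) : k) = ((f a - f b : 𝓞 k) : k) := rfl
      refine ⟨?_, ?_⟩
      · simp only [e]; exact hNr1 _ hne
      · intro p
        simp only [map_sub]
        have h1 := hfS a ha p
        have h2 := hfS b hb p
        calc |rv p ((f a : 𝓞 k) : k) - rv p ((f b : 𝓞 k) : k)| ≤
              |rv p ((f a : 𝓞 k) : k)| + |rv p ((f b : 𝓞 k) : k)| := abs_sub _ _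
          _ ≤ 2 * C0 * S := by linarith
  have k1 := count (fun w => (Φ w).1) (Real.sqrt (T * r)) (Real.sqrt_nonneg _) hsz1
  have k2 := count (fun w => (Φ w).2) (Real.sqrt (T / r)) (Real.sqrt_nonneg _) hsz2
  have e1 : Real.sqrt (T * r) ^ n = Real.sqrt (X * r ^ n) := by
    symm
    rw [Real.sqrt_eq_iff_mul_self_eq (by positivity) (by positivity), ← mul_pow,
      Real.mul_self_sqrt (by positivity), mul_pow, hTn]
  have e2 : Real.sqrt (T / r) ^ n = Real.sqrt (X / r ^ n) := by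
    symm
    rw [Real.sqrt_eq_iff_mul_self_eq (by positivity) (by positivity), ← mul_pow,
      Real.mul_self_sqrt (by positivity), div_pow, hTn]
  rw [e1] at k1
  rw [e2] at k2
  -- card
  have k3 : (F.card : ℝ) ≤ ((F.image (fun w => (Φ w).1)).card : ℝ) *
      ((F.image (fun w => (Φ w).2)).card : ℝ) := by
    have h1 : F.card ≤ ((F.image (fun w => (Φ w).1)) ×ˢ (F.image (fun w => (Φ w).2))).card := by
      apply Finset.card_le_card_of_injOn Φ _ hinj
      intro w hw
      have hw := Finset.mem_coe.1 hw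
      apply Finset.mem_coe.2
      rw [Finset.mem_product]
      exact ⟨Finset.mem_image_of_mem (fun w => (Φ w).1) hw,
        Finset.mem_image_of_mem (fun w => (Φ w).2) hw⟩
    rw [Finset.card_product] at h1
    exact_mod_cast h1
  have s1 : Real.sqrt (X * r ^ n) ≤ X := by
    rw [Real.sqrt_le_left hX]
    nlinarith
  have s2 : Real.sqrt (X / r ^ n) ≤ X := by
    rw [Real.sqrt_le_left hX, div_le_iff₀ (by positivity)]
    nlinarith
  have s3 : Real.sqrt (X * r ^ n) * Real.sqrt (X / r ^ n) = X := by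
    rw [← Real.sqrt_mul (by positivity)]
    have : X * r ^ n * (X / r ^ n) = X * X := by field_simp
    rw [this, Real.sqrt_mul_self hX]
  set p := Real.sqrt (X * r ^ n)
  set q := Real.sqrt (X / r ^ n)
  have hp0 : 0 ≤ p := Real.sqrt_nonneg _
  have hq0 : 0 ≤ q := Real.sqrt_nonneg _
  set c := (2 * C0) ^ n
  refine k3.trans ((mul_le_mul k1 k2 (by positivity) (by positivity)).trans ?_)
  calc C1 * (1 + c * p) * (C1 * (1 + c * q)) = C1 ^ 2 * ((1 + c * p) * (1 + c * q)) := by ring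
    _ ≤ C1 ^ 2 * ((c + c * p) * (c + c * q)) := by gcongr
    _ = C1 ^ 2 * (c ^ 2 * (1 + p + q + p * q)) := by ring
    _ ≤ C1 ^ 2 * (c ^ 2 * (4 * X)) := by
        apply mul_le_mul_of_nonneg_left _ (by positivity)
        apply mul_le_mul_of_nonneg_left _ (by positivity)
        rw [s3]; linarith
    _ = _ := by ring

end

end Pool.Agent.H77.CM4
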