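import Pool.Agent.H95.CM.Targets

/-!
# (CYC): the quotient by an ideal of squarefree norm is cyclic
-/

set_option autoImplicit false

open MeasureTheory Set Filter NumberField
open scoped Real nonZeroDivisors
open Pool.Agent.H65.CM4
open Pool.Agent.H95.CM

namespace Pool.Agent.H77.CM4

theorem pf_CYC : T_CYC := by
  intro k K _ _ _ _ _ _ _ _ P hP hsq
  set n := Ideal.relNorm (𝓞 k) P with hn
  have h2 : ∀ a : 𝓞 k, algebraMap (𝓞 k) (𝓞 K) a ∈ P ↔ a ∈ n := by
    intro a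
    constructor
    · intro ha
      have h1 : P ∣ Ideal.map (algebraMap (𝓞 k) (𝓞 K)) (Ideal.span {a}) := by
        rw [Ideal.dvd_iff_le, Ideal.map_span, Set.image_singleton, Ideal.span_singleton_le_iff_mem]
        exact ha
      have h2 : n ∣ Ideal.span {a} ^ (Module.finrank (𝓞 k) (𝓞 K)) := by
        rw [← Ideal.relNorm_algebraMap (𝓞 K) (Ideal.span {a})]
        exact map_dvd _ h1
      have h0 : Module.finrank (𝓞 k) (𝓞 K) ≠ 0 := Module.finrank_pos.ne'
      have h3 := (hsq.dvd_pow_iff_dvd h0).1 h2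
      rw [Ideal.dvd_iff_le, Ideal.span_singleton_le_iff_mem] at h3
      exact h3
    · intro ha
      exact Ideal.relNorm_le_comap (R := 𝓞 k) P ha
  refine ⟨?_, h2⟩
  have hle : n ≤ Ideal.comap (algebraMap (𝓞 k) (𝓞 K)) P := Ideal.relNorm_le_comap (R := 𝓞 k) P
  have hge : Ideal.comap (algebraMap (𝓞 k) (𝓞 K)) P ≤ n := fun a ha => (h2 a).1 ha
  set f := Ideal.quotientMap P (algebraMap (𝓞 k) (𝓞 K)) hle with hf
  have hinj : Function.Injective f := Ideal.quotientMap_injective' hge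
  have hfin : Finite (𝓞 K ⧸ P) := Ideal.finiteQuotientOfFreeOfNeBot P hP
  have hcard : Nat.card (𝓞 K ⧸ P) ≤ Nat.card (𝓞 k ⧸ n) := by
    have e1 : Nat.card (𝓞 K ⧸ P) = Ideal.absNorm P := by
      rw [Ideal.absNorm_apply]; rfl
    have e2 : Nat.card (𝓞 k ⧸ n) = Ideal.absNorm n := by
      rw [Ideal.absNorm_apply]; rfl
    rw [e1, e2, hn, Ideal.absNorm_relNorm]
  have hbij := hinj.bijective_of_nat_card_le hcard
  intro x
  obtain ⟨y, hy⟩ := hbij.2 (Ideal.Quotient.mk P x)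
  obtain ⟨a, rfl⟩ := Ideal.Quotient.mk_surjective y
  refine ⟨a, ?_⟩
  rw [hf, Ideal.quotientMap_mk] at hy
  have := Ideal.Quotient.eq.1 hy.symm
  exact this

end Pool.Agent.H77.CM4
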