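import Pool.Agent.H95.CM.Targets

/-!
# (LIN): the lattice of a multiple of an ideal
-/

set_option autoImplicit false

open MeasureTheory Set Filter NumberField
open scoped Real nonZeroDivisors
open Pool.Agent.H65.CM4
open Pool.Agent.H95.CM

namespace Pool.Agent.H77.CM4

theorem mem_lt' {k K : Type} [Field k] [NumberField k] [Field K] [NumberField K] [Algebra k K]
    (α β : K) (J : Ideal (𝓞 K)) (u : V2 k) :
    u ∈ lt α β J ↔ ∃ x ∈ J, (x : K) = lin α β u := Iff.rfl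

theorem coe_add' {k : Type} [Field k] (a b : 𝓞 k) : ((a + b : 𝓞 k) : k) = (a : k) + (b : k) := rfl
theorem coe_mul' {k : Type} [Field k] (a b : 𝓞 k) : ((a * b : 𝓞 k) : k) = (a : k) * (b : k) := rfl
theorem coe_am' {k K : Type} [Field k] [NumberField k] [Field K] [NumberField K] [Algebra k K]
    (a : 𝓞 k) : ((algebraMap (𝓞 k) (𝓞 K) a : 𝓞 K) : K) = algebraMap k K (a : k) := rfl

theorem pf_LIN (hCYC : T_CYC) (hMEM : T_MEM) : T_LIN := by
  intro k K _ _ _ _ _ _ _ _ b I α β μ M Q hb hI hO P hP hsq hcop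
  obtain ⟨hc1, hc2⟩ := hCYC k K P hP hsq
  set n := Ideal.relNorm (𝓞 k) P with hn
  have hn0 : n ≠ ⊥ := by rw [hn, Ne, Ideal.relNorm_eq_bot_iff]; exact hP
  -- b is a unit modulo n
  obtain ⟨ν, hν, c, hcb⟩ : ∃ ν ∈ n, ∃ c : 𝓞 k, ν + c * (b : 𝓞 k) = 1 := by
    have h1 : (1 : 𝓞 k) ∈ n ⊔ Ideal.span {(b : 𝓞 k)} := by rw [hcop]; trivial
    obtain ⟨ν, hν, y, hy, e⟩ := Submodule.mem_sup.1 h1
    obtain ⟨c, rfl⟩ := Ideal.mem_span_singleton'.1 hy
    exact ⟨ν, hν, c, e⟩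
  have hnP : ∀ a ∈ n, algebraMap (𝓞 k) (𝓞 K) a ∈ P := fun a ha => (hc2 a).2 ha
  -- generator of I modulo P I
  obtain ⟨g, hg⟩ := IsDedekindDomain.exists_sup_span_eq (I := P * I) (J := I) Ideal.mul_le_right
    (mul_ne_zero hP hI)
  have hgI : g ∈ I := by
    have : g ∈ P * I ⊔ Ideal.span {g} :=
      (le_sup_right : Ideal.span {g} ≤ P * I ⊔ Ideal.span {g}) (Ideal.mem_span_singleton_self g)
    rw [hg] at this
    exact this
  have hgen : ∀ x ∈ I, ∃ y : 𝓞 K, x - g * y ∈ P * I := by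
    intro x hx
    rw [← hg] at hx
    obtain ⟨z, hz, w, hw, e⟩ := Submodule.mem_sup.1 hx
    obtain ⟨y, rfl⟩ := Ideal.mem_span_singleton'.1 hw
    refine ⟨y, ?_⟩
    have : x - g * y = z := by rw [← e]; ring
    rw [this]; exact hz
  have hcan : ∀ y : 𝓞 K, g * y ∈ P * I → y ∈ P := by
    intro y hy
    have h1 : Ideal.span {y} * I ≤ P * I := by
      rw [Ideal.span_singleton_mul_le_iff]
      intro x hx
      rw [← hg] at hx
      obtain ⟨z, hz, w, hw, e⟩ := Submodule.mem_sup.1 hx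
      obtain ⟨t, rfl⟩ := Ideal.mem_span_singleton'.1 hw
      have : y * x = y * z + t * (g * y) := by rw [← e]; ring
      rw [this]
      exact Ideal.add_mem _ (Ideal.mul_mem_left _ _ hz) (Ideal.mul_mem_left _ _ hy)
    have h2 : P * I ∣ Ideal.span {y} * I := Ideal.dvd_iff_le.2 h1
    have h3 : P ∣ Ideal.span {y} := (mul_dvd_mul_iff_right hI).1 h2
    exact Ideal.dvd_span_singleton.1 h3
  have hred : ∀ x ∈ I, ∃ a : 𝓞 k, x - g * algebraMap (𝓞 k) (𝓞 K) a ∈ P * I := by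
    intro x hx
    obtain ⟨y, hy⟩ := hgen x hx
    obtain ⟨a, ha⟩ := hc1 y
    refine ⟨a, ?_⟩
    have : x - g * algebraMap (𝓞 k) (𝓞 K) a =
        (x - g * y) + (y - algebraMap (𝓞 k) (𝓞 K) a) * g := by ring
    rw [this]
    exact Ideal.add_mem _ hy (Ideal.mul_mem_mul ha hgI)
  -- the values at the basis
  have hM : ∀ u : V2 k, ∃ x ∈ I, (x : K) = lin α β ((b : 𝓞 k) • u) := by
    intro u
    have := hO.bM u
    rw [hO.lat] at this
    exact this
  obtain ⟨X1, hX1, eX1⟩ := hM (1, 0)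
  obtain ⟨X2, hX2, eX2⟩ := hM (0, 1)
  obtain ⟨a1, ha1⟩ := hred X1 hX1
  obtain ⟨a2, ha2⟩ := hred X2 hX2
  have hlin : ∀ (u : V2 k) (x : 𝓞 K), (x : K) = lin α β ((b : 𝓞 k) • u) →
      x - g * algebraMap (𝓞 k) (𝓞 K) (a1 * u.1 + a2 * u.2) ∈ P * I := by
    intro u x hx
    have e1 : (x : K) = algebraMap k K (u.1 : k) * X1 + algebraMap k K (u.2 : k) * X2 := by
      rw [hx, eX1, eX2]
      simp only [lin, Prod.smul_fst, Prod.smul_snd, smul_eq_mul, mul_one, mul_zero]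
      rw [coe_mul', coe_mul', map_mul, map_mul]
      have h0 : ((0 : 𝓞 k) : k) = 0 := rfl
      rw [h0, map_zero]
      ring
    have e2 : x = algebraMap (𝓞 k) (𝓞 K) u.1 * X1 + algebraMap (𝓞 k) (𝓞 K) u.2 * X2 := by
      apply RingOfIntegers.coe_injective
      exact e1
    have e3 : x - g * algebraMap (𝓞 k) (𝓞 K) (a1 * u.1 + a2 * u.2) =
        algebraMap (𝓞 k) (𝓞 K) u.1 * (X1 - g * algebraMap (𝓞 k) (𝓞 K) a1) +
        algebraMap (𝓞 k) (𝓞 K) u.2 * (X2 - g * algebraMap (𝓞 k) (𝓞 K) a2) := by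
      rw [e2, map_add, map_mul, map_mul]; ring
    rw [e3]
    exact Ideal.add_mem _ (Ideal.mul_mem_left _ _ ha1) (Ideal.mul_mem_left _ _ ha2)
  -- multiplication by b
  have hbx : ∀ (u : V2 k) (x : 𝓞 K), (x : K) = lin α β u →
      (((b : 𝓞 K) * x : 𝓞 K) : K) = lin α β ((b : 𝓞 k) • u) := by
    intro u x hx
    rw [lin_smul, ← hx, coe_mul']
    have h1 : ((b : 𝓞 K) : K) = (b : K) := map_natCast (algebraMap (𝓞 K) K) b
    have h2 : ((b : 𝓞 k) : k) = (b : k) := map_natCast (algebraMap (𝓞 k) k) b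
    rw [h1, h2, map_natCast]
  have hkey : ∀ (u : V2 k) (x : 𝓞 K), x ∈ I → (x : K) = lin α β u →
      (x ∈ P * I ↔ a1 * u.1 + a2 * u.2 ∈ n) := by
    intro u x hxI hx
    have h1 := hlin u _ (hbx u x hx)
    constructor
    · intro h
      have h2 : g * algebraMap (𝓞 k) (𝓞 K) (a1 * u.1 + a2 * u.2) ∈ P * I := by
        have e : g * algebraMap (𝓞 k) (𝓞 K) (a1 * u.1 + a2 * u.2) = (b : 𝓞 K) * x -
          ((b : 𝓞 K) * x - g * algebraMap (𝓞 k) (𝓞 K) (a1 * u.1 + a2 * u.2)) := by ring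
        rw [e]
        exact Ideal.sub_mem _ (Ideal.mul_mem_left _ _ h) h1
      exact (hc2 _).1 (hcan _ h2)
    · intro h
      have h2 : (b : 𝓞 K) * x ∈ P * I := by
        have e : (b : 𝓞 K) * x = ((b : 𝓞 K) * x -
          g * algebraMap (𝓞 k) (𝓞 K) (a1 * u.1 + a2 * u.2)) +
          algebraMap (𝓞 k) (𝓞 K) (a1 * u.1 + a2 * u.2) * g := by ring
        rw [e]
        exact Ideal.add_mem _ h1 (Ideal.mul_mem_mul (hnP _ h) hgI)
      have e : x = algebraMap (𝓞 k) (𝓞 K) ν * x + algebraMap (𝓞 k) (𝓞 K) c * ((b : 𝓞 K) * x) := by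
        have := congrArg (algebraMap (𝓞 k) (𝓞 K)) hcb
        rw [map_add, map_mul, map_one, map_natCast] at this
        calc x = 1 * x := (one_mul x).symm
          _ = _ := by rw [← this]; ring
      rw [e]
      exact Ideal.add_mem _ (Ideal.mul_mem_mul (hnP _ hν) hxI) (Ideal.mul_mem_left _ _ h2)
  -- the lattice
  set w : V2 k := (a2, -a1) with hw
  have hdet : ∀ u : V2 k, det w u = a1 * u.1 + a2 * u.2 := by
    intro u
    simp only [det, hw]; ring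
  have hCop : Cop n w := by
    obtain ⟨u, hu⟩ := hO.mem g hgI
    have h1 := hlin u _ (hbx u g hu.symm)
    have h2 : g * ((b : 𝓞 K) - algebraMap (𝓞 k) (𝓞 K) (a1 * u.1 + a2 * u.2)) ∈ P * I := by
      have e : g * ((b : 𝓞 K) - algebraMap (𝓞 k) (𝓞 K) (a1 * u.1 + a2 * u.2)) =
        (b : 𝓞 K) * g - g * algebraMap (𝓞 k) (𝓞 K) (a1 * u.1 + a2 * u.2) := by ring
      rw [e]; exact h1
    have h3 := hcan _ h2
    have h4 : (b : 𝓞 k) - (a1 * u.1 + a2 * u.2) ∈ n := by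
      rw [← hc2, map_sub, map_natCast]; exact h3
    unfold Cop
    rw [Ideal.eq_top_iff_one]
    have e : (1 : 𝓞 k) = c * (a1 * u.1 + a2 * u.2) +
        (ν + c * ((b : 𝓞 k) - (a1 * u.1 + a2 * u.2))) := by
      rw [← hcb]; ring
    rw [e]
    refine Submodule.add_mem_sup ?_ (Ideal.add_mem _ hν (Ideal.mul_mem_left _ _ h4))
    apply Ideal.mul_mem_left
    rw [Ideal.mem_span_pair]
    refine ⟨u.2, -u.1, ?_⟩
    simp only [hw]; ring
  have hlt : lt α β (P * I) = M ⊓ Lw n w := by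
    ext u
    rw [Submodule.mem_inf, mem_lt']
    constructor
    · rintro ⟨x, hx, e⟩
      have hxI : x ∈ I := Ideal.mul_le_right hx
      refine ⟨by rw [hO.lat]; exact ⟨x, hxI, e⟩, ?_⟩
      change det w u ∈ n
      rw [hdet]
      exact (hkey u x hxI e).1 hx
    · rintro ⟨hu, hd⟩
      rw [hO.lat] at hu
      obtain ⟨x, hx, e⟩ := hu
      change det w u ∈ n at hd
      rw [hdet] at hd
      exact ⟨x, (hkey u x hx e).2 hd, e⟩
  refine ⟨Lw n w, ((hMEM k).1 n _ hn0).2 ⟨w, hCop, rfl⟩, ?_, hlt⟩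
  -- divisibility
  intro u hu
  have hμ : μ ≠ 0 := by
    rintro rfl
    obtain ⟨v⟩ : Nonempty (Pl k) := inferInstance
    have := hO.pos v
    rw [map_zero] at this
    exact lt_irrefl _ this
  have hbu : (b : 𝓞 k) • u ∈ lt α β (P * I) := by
    rw [hlt]
    exact ⟨hO.bM u, (Lw n w).smul_mem _ hu⟩
  obtain ⟨x, hx, ex⟩ := hbu
  have hnorm : ∀ (y : 𝓞 K) (u' : V2 k), (y : K) = lin α β u' →
      ((Algebra.intNorm (𝓞 k) (𝓞 K) y : 𝓞 k) : k) = μ * ((val Q u' : 𝓞 k) : k) := by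
    intro y u' hy
    have h1 : ((Algebra.intNorm (𝓞 k) (𝓞 K) y : 𝓞 k) : k) = Algebra.norm k (y : K) :=
      Algebra.algebraMap_intNorm (A := 𝓞 k) (K := k) (L := K) (B := 𝓞 K) y
    rw [h1, hy, hO.nrm]
  have hJ : ∀ j ∈ Ideal.relNorm (𝓞 k) I, ∃ s : 𝓞 k, (j : k) = μ * (s : k) := by
    intro j hj
    rw [Ideal.relNorm_apply] at hj
    refine Submodule.span_induction ?_ ?_ ?_ ?_ hj
    · rintro z ⟨y, hy, rfl⟩
      obtain ⟨u', hu'⟩ := hO.mem y hy
      exact ⟨val Q u', hnorm y u' hu'.symm⟩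
    · exact ⟨0, by simp⟩
    · rintro z1 z2 _ _ ⟨s1, e1⟩ ⟨s2, e2⟩
      refine ⟨s1 + s2, ?_⟩
      rw [coe_add', coe_add', e1, e2]; ring
    · rintro t z _ ⟨s, e⟩
      refine ⟨t * s, ?_⟩
      rw [smul_eq_mul, coe_mul', coe_mul', e]; ring
  have hnJ : ∀ t ∈ n * Ideal.relNorm (𝓞 k) I, ∃ s ∈ n, (t : k) = μ * (s : k) := by
    intro t ht
    refine Submodule.mul_induction_on ht ?_ ?_
    · intro m hm j hj
      obtain ⟨s, hs⟩ := hJ j hj
      refine ⟨m * s, n.mul_mem_right _ hm, ?_⟩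
      rw [coe_mul', coe_mul', hs]; ring
    · rintro z1 z2 ⟨s1, h1, e1⟩ ⟨s2, h2, e2⟩
      refine ⟨s1 + s2, n.add_mem h1 h2, ?_⟩
      rw [coe_add', coe_add', e1, e2]; ring
  have hx2 : Algebra.intNorm (𝓞 k) (𝓞 K) x ∈ n * Ideal.relNorm (𝓞 k) I := by
    rw [hn, ← map_mul, Ideal.relNorm_apply]
    exact Ideal.intNorm_mem_spanNorm (R := 𝓞 k) hx
  obtain ⟨s, hs, es⟩ := hnJ _ hx2
  rw [hnorm x _ ex] at es
  have e1 : val Q ((b : 𝓞 k) • u) = s := by
    apply RingOfIntegers.coe_injective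
    exact mul_left_cancel₀ hμ es
  have e2 : val Q ((b : 𝓞 k) • u) = (b : 𝓞 k) ^ 2 * val Q u := by
    simp only [val, Prod.smul_fst, Prod.smul_snd, smul_eq_mul]; ring
  have e3 : val Q u = ν * ((ν + 2 * (c * (b : 𝓞 k))) * val Q u) +
      c ^ 2 * ((b : 𝓞 k) ^ 2 * val Q u) := by
    calc val Q u = (ν + c * (b : 𝓞 k)) ^ 2 * val Q u := by rw [hcb]; ring
      _ = _ := by ring
  rw [e3, ← e2, e1]
  exact n.add_mem (n.mul_mem_right _ hν) (n.mul_mem_left _ hs)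

end Pool.Agent.H77.CM4
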